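import Pool.Agent.H548R3.MM.Mult

set_option autoImplicit false

/-!
# MP_d5976f_an: the bound `Λ(pⁿ) ≥ dⁿ` for all `p` and all `n = 12, 18, 24, …`, and for all `n ≥ 2`
# with `Re(tᵐ) ≥ 0` for some divisor `m ≥ 2` of `n`

For a complex polynomial `p` put `t = ∑_{p(ζ)=0} p'(ζ)` (zeros counted with multiplicity).
-/

namespace Pool.Agent.Results.MP_d5976f_an.HalfPlane

open Polynomial

/-- `pⁿ`, the `n`-th iterate (the form used in the frozen statement). -/
noncomputable def iterate (p : ℂ[X]) (n : ℕ) : ℂ[X] := (fun q : ℂ[X] => p.comp q)^[n] X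

/-- `t(p) = ∑_{p(ζ)=0} p'(ζ)`, the zeros of `p` being counted with multiplicity. -/
noncomputable def t (p : ℂ[X]) : ℂ := (p.roots.map (fun ζ => (derivative p).eval ζ)).sum

/-- `Λ(pⁿ) ≥ dⁿ`: some fixed point of `pⁿ` has multiplier of modulus at least `(deg p)ⁿ`. -/
def Bound (p : ℂ[X]) (n : ℕ) : Prop :=
  ∃ z : ℂ, (iterate p n).eval z = z ∧
    (p.natDegree : ℝ) ^ n ≤ ‖(derivative (iterate p n)).eval z‖

theorem result :
    -- (1) every polynomial, and every multiple `n ≥ 12` of `6`; also `n = 6` if the degree is `≥ 8`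
    (∀ p : ℂ[X], 2 ≤ p.natDegree → ∀ m : ℕ, 1 ≤ m → (2 ≤ m ∨ 8 ≤ p.natDegree) →
      Bound p (6 * m)) ∧
    -- (2) every polynomial, and every `m ≥ 2`: one of `n = m, 2m, 3m`
    (∀ p : ℂ[X], 2 ≤ p.natDegree → ∀ m : ℕ, 2 ≤ m →
      Bound p m ∨ Bound p (2 * m) ∨ Bound p (3 * m)) ∧
    -- (3) the half-plane criterion, for some divisor `m ≥ 2` of `n = m * k`
    (∀ p : ℂ[X], 2 ≤ p.natDegree → ∀ m k : ℕ, 2 ≤ m → 1 ≤ k → 0 ≤ (t p ^ m).re →
      Bound p (m * k)) ∧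
    -- (4) degree at least 8 and `Re t ≥ 0`: every `n`
    (∀ p : ℂ[X], 8 ≤ p.natDegree → 0 ≤ (t p).re → ∀ n : ℕ, 1 ≤ n → Bound p n) ∧
    -- (5) all `p = q₁(q₂^m)`, `m ≥ 2`, `q₁, q₂` nonconstant, and every `n ≥ 2`
    (∀ q₁ q₂ : ℂ[X], 1 ≤ q₁.natDegree → 1 ≤ q₂.natDegree → ∀ m : ℕ, 2 ≤ m →
      ∀ n : ℕ, 2 ≤ n → Bound (q₁.comp (q₂ ^ m)) n) ∧
    -- (6) all quadratic polynomials, and every `n ≥ 2`
    (∀ p : ℂ[X], p.natDegree = 2 → ∀ n : ℕ, 2 ≤ n → Bound p n) ∧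
    -- (7) all real polynomials, and every even `n ≥ 2`
    (∀ q : ℝ[X], 2 ≤ q.natDegree → ∀ k : ℕ, 1 ≤ k → Bound (q.map (algebraMap ℝ ℂ)) (2 * k)) ∧
    -- (8) a lower bound for every polynomial and every `n ≥ 1`
    (∀ p : ℂ[X], 2 ≤ p.natDegree → ∀ n : ℕ, 1 ≤ n →
      ∃ z : ℂ, (iterate p n).eval z = z ∧
        ‖(p.natDegree : ℂ) ^ n - 1 + t p ^ n / (p.natDegree : ℂ) ^ n‖
          ≤ ‖(derivative (iterate p n)).eval z‖) := by
  have h1 : ∀ p : ℂ[X], 2 ≤ p.natDegree → ∀ n : ℕ, 2 ≤ n → 0 ≤ (t p ^ n).re → Bound p n :=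
    fun p hd n hn hT => Pool.Agent.H548R3.MM.half_plane p hd n hn hT
  have hmul : ∀ p : ℂ[X], ∀ m k : ℕ, Bound p m → Bound p (m * k) :=
    fun p m k h => Pool.Agent.H548R3.MM.bound_mul p m k h
  have h2 : ∀ p : ℂ[X], 2 ≤ p.natDegree → ∀ m : ℕ, 2 ≤ m →
      Bound p m ∨ Bound p (2 * m) ∨ Bound p (3 * m) := by
    intro p hd m hm
    rcases Pool.Agent.H548R3.MM.one_of_three (t p ^ m) with h | h | h
    · exact Or.inl (h1 p hd m hm h)
    · refine Or.inr (Or.inl (h1 p hd _ (by omega) ?_))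
      rw [mul_comm, pow_mul]; exact h
    · refine Or.inr (Or.inr (h1 p hd _ (by omega) ?_))
      rw [mul_comm, pow_mul]; exact h
  refine ⟨?_, h2, ?_, ?_, ?_, ?_, ?_, ?_⟩
  · intro p hd m _ hm
    rcases hm with hm | h8
    · rcases h2 p hd m hm with h | h | h
      · have := hmul p m 6 h
        rwa [mul_comm] at this
      · have := hmul p (2 * m) 3 h
        rwa [show 2 * m * 3 = 6 * m by ring] at this
      · have := hmul p (3 * m) 2 h
        rwa [show 3 * m * 2 = 6 * m by ring] at this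
    · rcases Pool.Agent.H548R3.MM.one_of_three (t p) with h | h | h
      · have := hmul p 1 (6 * m) (Pool.Agent.H548R3.MM.bound_one p h8 h)
        rwa [one_mul] at this
      · have := hmul p 2 (3 * m) (h1 p hd 2 le_rfl h)
        rwa [show 2 * (3 * m) = 6 * m by ring] at this
      · have := hmul p 3 (2 * m) (h1 p hd 3 (by omega) h)
        rwa [show 3 * (2 * m) = 6 * m by ring] at this
  · intro p hd m k hm _ hT
    exact hmul p m k (h1 p hd m hm hT)
  · intro p hd hT n _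
    have := hmul p 1 n (Pool.Agent.H548R3.MM.bound_one p hd hT)
    rwa [one_mul] at this
  · intro q₁ q₂ hq₁ hq₂ m hm n hn
    refine h1 _ ?_ n hn ?_
    · rw [natDegree_comp, natDegree_pow]
      nlinarith [Nat.mul_le_mul hq₁ (Nat.mul_le_mul hm hq₂)]
    · have : t (q₁.comp (q₂ ^ m)) = 0 :=
        Pool.Agent.H548R3.MM.tr_comp_pow q₁ q₂ hq₁ hq₂ m hm
      rw [this, zero_pow (by omega)]
      simp
  · intro p hd n hn
    refine h1 p hd.ge n hn ?_
    have : t p = 0 := Pool.Agent.H548R3.MM.tr_quadratic p hd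
    rw [this, zero_pow (by omega)]
    simp
  · intro q hq k hk
    refine h1 _ ?_ (2 * k) (by omega) ?_
    · rw [natDegree_map]; exact hq
    · have him : (t (q.map (algebraMap ℝ ℂ))).im = 0 := Pool.Agent.H548R3.MM.tr_real q
      have hre : t (q.map (algebraMap ℝ ℂ)) = (((t (q.map (algebraMap ℝ ℂ))).re : ℝ) : ℂ) := by
        apply Complex.ext
        · simp
        · rw [him]; simp
      rw [hre, ← Complex.ofReal_pow, Complex.ofReal_re, pow_mul]
      positivity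
  · intro p hd n hn
    exact Pool.Agent.H548R3.MM.mean_bound p hd n hn

end Pool.Agent.Results.MP_d5976f_an.HalfPlane
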